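import Mathlib

set_option autoImplicit false

namespace Pool.Agent.Results.MP_f8f7ac_co.NoSymmetry

/-- The Euclidean plane. -/
abbrev E := EuclideanSpace ℝ (Fin 2)

/-- Combinatorial configuration `(n_3)`; `I i j` means point `i` lies on line `j`. -/
def IsConfig (n : ℕ) (I : Fin n → Fin n → Prop) : Prop :=
  (∀ j, {i | I i j}.ncard = 3) ∧ (∀ i, {j | I i j}.ncard = 3) ∧
  ∀ i i' j j', i ≠ i' → I i j → I i' j → I i j' → I i' j' → j = j'

/-- An automorphism: bijections of points and of lines preserving incidence both ways. -/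
def IsAut {n : ℕ} (I : Fin n → Fin n → Prop) (s t : Equiv.Perm (Fin n)) : Prop :=
  ∀ i j, I (s i) (t j) ↔ I i j

/-- A straight line of the plane. -/
def IsLine (l : Set E) : Prop := ∃ a b c : ℝ, (a ≠ 0 ∨ b ≠ 0) ∧ l = {x | a * x 0 + b * x 1 = c}

/-- Distinct points `p` and distinct straight lines `L` realize `I`, with exactly its incidences. -/
def Realizes {n : ℕ} (I : Fin n → Fin n → Prop) (p : Fin n → E) (L : Fin n → Set E) : Prop :=
  Function.Injective p ∧ Function.Injective L ∧ (∀ j, IsLine (L j)) ∧ ∀ i j, p i ∈ L j ↔ I i j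

/-- A symmetry of a realization: an isometry mapping points onto points and lines onto lines. -/
def IsSymmetry {n : ℕ} (p : Fin n → E) (L : Fin n → Set E) (g : E ≃ᵢ E) : Prop :=
  g '' Set.range p = Set.range p ∧ (fun l => g '' l) '' Set.range L = Set.range L

def ib (i j : Fin 13) : Bool := Nat.testBit 234585330743925914885253393048045176032095837107216 (13 * i.val + j.val)
def I (i j : Fin 13) : Prop := ib i j = true
instance (i j : Fin 13) : Decidable (I i j) := inferInstanceAs (Decidable (ib i j = true))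

theorem config : IsConfig 13 I := by
  refine ⟨fun j => ?_, fun i => ?_, by decide +kernel⟩
  · have : ∀ j, (Finset.univ.filter (fun i => I i j)).card = 3 := by decide +kernel
    rw [← this j, ← Set.ncard_coe_finset]; congr 1; ext; simp
  · have : ∀ i, (Finset.univ.filter (fun j => I i j)).card = 3 := by decide +kernel
    rw [← this i, ← Set.ncard_coe_finset]; congr 1; ext; simp

def px : Fin 13 → ℤ := ![-204, -102, -204, -102, 408, 204, 102, 238, -204, -102, 0, -12, 612]
def py : Fin 13 → ℤ := ![-2244, 306, -255, -102, 204, -204, 1122, -34, -102, -204, -102, -132, -408]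
def la : Fin 13 → ℤ := ![2, -3, -1, -3, -5, -8, 2, 0, 4, -1, -11, 1, 1]
def lb : Fin 13 → ℤ := ![0, 4, -3, -1, 1, 2, -4, -2, -5, -2, 1, 1, 0]
def lc : Fin 13 → ℤ := ![-204, -408, 408, -1428, -1224, 1428, 612, 204, 612, 204, 0, 204, -204]

theorem r1 : ∀ i j, la j * px i + lb j * py i = lc j ↔ I i j := by decide +kernel
theorem r2 : ∀ j, la j ≠ 0 ∨ lb j ≠ 0 := by decide +kernel
theorem r3 : ∀ i k : Fin 13, (∀ j, I i j ↔ I k j) → i = k := by decide +kernel
theorem r4 : ∀ i k : Fin 13, (∀ j, I j i ↔ I j k) → i = k := by decide +kernel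

theorem real : ∃ p L, Realizes I p L := by
  let p : Fin 13 → E := fun i => !₂[(px i : ℝ), (py i : ℝ)]
  let L : Fin 13 → Set E := fun j => {x | (la j : ℝ) * x 0 + (lb j : ℝ) * x 1 = (lc j : ℝ)}
  have h : ∀ i j, p i ∈ L j ↔ I i j := by
    intro i j
    rw [← r1]
    simp only [p, L, Set.mem_setOf_eq]
    simp
    norm_cast
  refine ⟨p, L, fun i k e => r3 i k fun j => ?_, fun i k e => r4 i k fun j => ?_, fun j => ?_, h⟩
  · rw [← h, ← h, e]
  · rw [← h, ← h, e]
  · refine ⟨la j, lb j, lc j, ?_, rfl⟩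
    exact_mod_cast r2 j

def mm : Fin 3 → Fin 13 := ![1, 3, 9]
def af (m : Fin 3) (b i : Fin 13) : Fin 13 := mm m * i + b

theorem t1 : ∀ m b, Function.Injective (af m b) := by decide +kernel
theorem t2 : ∀ m b i j, I (af m b i) (af m b j) ↔ I i j := by decide +kernel
theorem t3 : ∀ i j, I i j → ∀ i' j', I i' j' → ∃ m b, af m b i = i' ∧ af m b j = j' := by
  decide +kernel
theorem t4 : ∀ i, I (i + 1) i ∧ I i (i - 1) := by decide +kernel

theorem flagT (i j i' j' : Fin 13) (h : I i j) (h' : I i' j') :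
    ∃ s t, IsAut I s t ∧ s i = i' ∧ t j = j' := by
  obtain ⟨m, b, h1, h2⟩ := t3 i j h i' j' h'
  let e := Equiv.ofBijective _ (Finite.injective_iff_bijective.1 (t1 m b))
  exact ⟨e, e, t2 m b, h1, h2⟩

abbrev V := Bool × Fin 13

def okb (x : V) (y : Fin 13) (L : List (V × Fin 13)) : Bool :=
  L.all (fun p => if x.1 = p.1.1 then (p.2 != y || p.1.2 == x.2) else
    if x.1 then ib p.1.2 x.2 == ib p.2 y else ib x.2 p.1.2 == ib y p.2)

def srch : List V → List (V × Fin 13) → Bool
  | [], L => (List.finRange 3).any (fun m => (List.finRange 13).any (fun b =>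
      L.all (fun p => af m b p.1.2 == p.2)))
  | x :: r, L => (List.finRange 13).all (fun y => !okb x y L || srch r ((x, y) :: L))

theorem k2 : srch [(false, 0), (true, 4), (false, 7), (true, 12), (true, 6), (false, 2), (false, 8), (true, 11), (true, 1), (false, 10), (true, 7), (false, 5), (true, 9), (false, 12), (true, 2), (false, 3), (true, 5), (false, 1), (true, 0), (false, 9), (true, 8), (false, 4), (false, 11), (true, 10), (false, 6), (true, 3)] [] = true := by decide +kernel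

theorem sound (f : V → Fin 13) (h1 : ∀ b i k, f (b, i) = f (b, k) → i = k)
    (h2 : ∀ i j, ib i j = ib (f (false, i)) (f (true, j))) :
    ∀ (r : List V) (L : List (V × Fin 13)), (∀ p ∈ L, p.2 = f p.1) → srch r L = true →
    ∃ m b, (∀ p ∈ L, f p.1 = af m b p.1.2) ∧ ∀ x ∈ r, f x = af m b x.2 := by
  intro r
  induction r with
  | nil =>
    intro L hL h
    rw [srch, List.any_eq_true] at h
    obtain ⟨m, -, h⟩ := h
    rw [List.any_eq_true] at h
    obtain ⟨b, -, h⟩ := h
    rw [List.all_eq_true] at h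
    refine ⟨m, b, fun p hp => ?_, by simp⟩
    have := h p hp
    rw [← hL p hp]; exact (beq_iff_eq.1 this).symm
  | cons x r ih =>
    intro L hL h
    rw [srch, List.all_eq_true] at h
    have h3 := h (f x) (List.mem_finRange _)
    have h4 : okb x (f x) L = true := by
      unfold okb
      rw [List.all_eq_true]
      rintro ⟨⟨a, k⟩, w⟩ hp
      have hw : w = f (a, k) := hL _ hp
      subst hw
      obtain ⟨c, i⟩ := x
      cases a <;> cases c <;> simp [h2 k i, h2 i k]
      · by_cases e : f (false, k) = f (false, i)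
        · exact Or.inr (h1 _ _ _ e)
        · exact Or.inl e
      · by_cases e : f (true, k) = f (true, i)
        · exact Or.inr (h1 _ _ _ e)
        · exact Or.inl e
    rw [h4] at h3
    simp only [Bool.not_true, Bool.false_or] at h3
    obtain ⟨m, b, h5⟩ := ih ((x, f x) :: L) (by
      intro p hp
      rcases List.mem_cons.1 hp with rfl | hp
      · rfl
      · exact hL p hp) h3
    refine ⟨m, b, fun p hp => h5.1 p (List.mem_cons_of_mem _ hp), fun z hz => ?_⟩
    rcases List.mem_cons.1 hz with rfl | hz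
    · exact h5.1 (z, f z) List.mem_cons_self
    · exact h5.2 z hz

theorem uniq (s t : Fin 13 → Fin 13) (hs : Function.Injective s) (ht : Function.Injective t)
    (h : ∀ i j, I i j ↔ I (s i) (t j)) : ∃ m b, ∀ j, s j = af m b j := by
  obtain ⟨m, b, -, this⟩ := sound (fun x => if x.1 then t x.2 else s x.2)
    (by
      intro b i k e
      cases b
      · exact hs e
      · exact ht e)
    (fun i j => Bool.eq_iff_iff.2 (h i j)) _ [] (by simp) k2
  refine ⟨m, b, fun j => ?_⟩
  have hj : ∀ j : Fin 13, ((false, j) : V) ∈ ([(false, 0), (true, 4), (false, 7), (true, 12), (true, 6), (false, 2), (false, 8), (true, 11), (true, 1), (false, 10), (true, 7), (false, 5), (true, 9), (false, 12), (true, 2), (false, 3), (true, 5), (false, 1), (true, 0), (false, 9), (true, 8), (false, 4), (false, 11), (true, 10), (false, 6), (true, 3)] : List V) := by decide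
  exact this _ (hj j)

theorem orb : ∀ m b, (∀ i, af m b i = i) ∨ ∃ j : Fin 13, ∃ a c : Fin 13,
    (af m b)^[a.val] (j + 1) = j + 3 ∧ (af m b)^[c.val] (j + 1) = j + 9 := by decide +kernel

theorem t5 : ∀ j : Fin 13, I (j + 1) j ∧ I (j + 3) j ∧ I (j + 9) j ∧ j + 1 ≠ j + 3 ∧ j + 1 ≠ j + 9 ∧
    j + 3 ≠ j + 9 := by decide +kernel

theorem prop (f1 f2 f3 g1 g2 g3 u1 u2 v1 v2 y1 y2 z1 z2 : ℝ)
    (a : f1 * u1 + f2 * u2 + f3 = 0) (b : f1 * v1 + f2 * v2 + f3 = 0)
    (c : g1 * u1 + g2 * u2 + g3 = 0) (d : g1 * v1 + g2 * v2 + g3 = 0) (ne : u1 ≠ v1 ∨ u2 ≠ v2) :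
    (f1 * y1 + f2 * y2 + f3) * (g1 * z1 + g2 * z2 + g3) =
      (f1 * z1 + f2 * z2 + f3) * (g1 * y1 + g2 * y2 + g3) := by
  have h : f1 * g2 - f2 * g1 = 0 := by
    rcases ne with ne | ne
    · apply mul_right_cancel₀ (sub_ne_zero.2 ne)
      linear_combination g2 * (a - b) - f2 * (c - d)
    · apply mul_right_cancel₀ (sub_ne_zero.2 ne)
      linear_combination f1 * (c - d) - g1 * (a - b)
  have e1 : f3 = -(f1 * u1 + f2 * u2) := by linarith
  have e2 : g3 = -(g1 * u1 + g2 * u2) := by linarith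
  subst e1 e2
  linear_combination ((y1 - u1) * (z2 - u2) - (y2 - u2) * (z1 - u1)) * h

theorem aff (g : E ≃ᵢ E) : ∃ a b c d e f : ℝ, ∀ y : E,
    g y 0 = a * y 0 + b * y 1 + c ∧ g y 1 = d * y 0 + e * y 1 + f := by
  let G := g.toRealAffineIsometryEquiv
  let A := G.linearIsometryEquiv
  have h : ∀ y : E, g y = y 0 • A !₂[1, 0] + y 1 • A !₂[0, 1] + g 0 := by
    intro y
    have h1 : G (y +ᵥ (0 : E)) = A y +ᵥ G 0 := G.map_vadd 0 y
    have h2 : y = y 0 • (!₂[1, 0] : E) + y 1 • (!₂[0, 1] : E) := by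
      ext i; fin_cases i <;> simp
    have h3 : A y = y 0 • A !₂[1, 0] + y 1 • A !₂[0, 1] := by
      conv_lhs => rw [h2]
      rw [map_add, map_smul, map_smul]
    simp only [vadd_eq_add, add_zero] at h1
    rw [← h3]; exact h1
  refine ⟨A !₂[1, 0] 0, A !₂[0, 1] 0, g 0 0, A !₂[1, 0] 1, A !₂[0, 1] 1, g 0 1, fun y => ?_⟩
  rw [h y]
  simp only [PiLp.add_apply, PiLp.smul_apply, smul_eq_mul]
  constructor <;> ring

theorem neq (u v : E) (h : u ≠ v) : u 0 ≠ v 0 ∨ u 1 ≠ v 1 := by
  by_contra hc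
  push Not at hc
  apply h; ext i; fin_cases i
  · exact hc.1
  · exact hc.2

theorem pos (a b : ℝ) (h : a ≠ 0 ∨ b ≠ 0) : 0 < a ^ 2 + b ^ 2 := by
  rcases h with h | h <;> positivity

theorem conv (a b d1 d2 e1 e2 X Y : ℝ) (ab : a ≠ 0 ∨ b ≠ 0) (h1 : a * d1 + b * d2 = 0)
    (h2 : a * e1 + b * e2 = 0) (hd : d1 ≠ 0 ∨ d2 ≠ 0) (he : e1 ≠ 0 ∨ e2 ≠ 0)
    (hde : d1 ≠ e1 ∨ d2 ≠ e2) (f1 : 13 * (d1 ^ 2 + d2 ^ 2) = d1 * X + d2 * Y)
    (f2 : 13 * (e1 ^ 2 + e2 ^ 2) = e1 * X + e2 * Y) : False := by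
  have h : d1 * e2 - d2 * e1 = 0 := by
    rcases ab with ab | ab
    · apply mul_left_cancel₀ ab; linear_combination e2 * h1 - d2 * h2
    · apply mul_left_cancel₀ ab; linear_combination d1 * h2 - e1 * h1
  have pD := pos _ _ hd
  have pE := pos _ _ he
  have g1 : (d1 ^ 2 + d2 ^ 2) * e1 = (e1 ^ 2 + e2 ^ 2) * d1 := by
    linear_combination (e1 * f1 - d1 * f2 - Y * h) / 13
  have g2 : (d1 ^ 2 + d2 ^ 2) * e2 = (e1 ^ 2 + e2 ^ 2) * d2 := by
    linear_combination (e2 * f1 - d2 * f2 + X * h) / 13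
  have g3 : d1 ^ 2 + d2 ^ 2 = e1 ^ 2 + e2 ^ 2 := by
    apply mul_left_cancel₀ (mul_pos pD pE).ne'
    linear_combination ((d1 ^ 2 + d2 ^ 2) * e1 + (e1 ^ 2 + e2 ^ 2) * d1) * g1 +
      ((d1 ^ 2 + d2 ^ 2) * e2 + (e1 ^ 2 + e2 ^ 2) * d2) * g2
  rw [g3] at g1 g2
  rcases hde with h | h
  · exact h (mul_left_cancel₀ pE.ne' g1).symm
  · exact h (mul_left_cancel₀ pE.ne' g2).symm

/-- A realizable `(13_3)` configuration, transitive on points, on lines and on flags, all of whose
realizations have only the trivial symmetry. -/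
theorem result : ∃ (n : ℕ) (I : Fin n → Fin n → Prop), IsConfig n I ∧ (∃ p L, Realizes I p L) ∧
    (∀ i i', ∃ s t, IsAut I s t ∧ s i = i') ∧ (∀ j j', ∃ s t, IsAut I s t ∧ t j = j') ∧
    (∀ i j i' j', I i j → I i' j' → ∃ s t, IsAut I s t ∧ s i = i' ∧ t j = j') ∧
    ∀ p L, Realizes I p L → ∀ g, IsSymmetry p L g → ∀ y, g y = y := by
  refine ⟨13, I, config, real, fun i i' => ?_, fun j j' => ?_, flagT, ?_⟩
  · obtain ⟨s, t, h, h1, -⟩ := flagT i _ i' _ (t4 i).2 (t4 i').2
    exact ⟨s, t, h, h1⟩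
  · obtain ⟨s, t, h, -, h1⟩ := flagT _ j _ j' (t4 j).1 (t4 j').1
    exact ⟨s, t, h, h1⟩
  rintro p L ⟨hp, hL, hl, hI⟩ g ⟨hg1, hg2⟩
  have e1 : ∀ j, ∃ k, p k = g (p j) := fun j => by
    have : g (p j) ∈ Set.range p := hg1 ▸ ⟨_, ⟨j, rfl⟩, rfl⟩
    exact this
  have e2 : ∀ i, ∃ j, L j = g '' L i := fun i => by
    have : g '' L i ∈ Set.range L := hg2 ▸ ⟨_, ⟨i, rfl⟩, rfl⟩
    exact this
  choose s hs using e1
  choose t ht using e2
  have si : Function.Injective s := fun j k e => hp (g.injective (by rw [← hs, ← hs, e]))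
  have ti : Function.Injective t := fun j k e =>
    hL (g.injective.image_injective (by rw [← ht, ← ht, e]))
  obtain ⟨m, b, hm⟩ := uniq s t si ti (fun i j => by
    rw [← hI, ← hI, hs, ht, g.injective.mem_set_image])
  rcases orb m b with h | ⟨j, a, c, ha, hc⟩
  · have fx : ∀ i, g (p i) = p i := fun i => by rw [← hs, hm, h]
    obtain ⟨a, b, c, d, e, f, hg⟩ := aff g
    obtain ⟨u, v, w, -, hw⟩ := hl 0
    have i1 := (hI 1 0).2 (by decide)
    have i3 := (hI 3 0).2 (by decide)
    have i0 : p 0 ∉ L 0 := fun h => absurd ((hI 0 0).1 h) (by decide)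
    rw [hw] at i1 i3 i0
    simp only [Set.mem_setOf_eq] at i1 i3 i0
    have n13 := neq (p 1) (p 3) (fun e => absurd (hp e) (by decide))
    have q := fun i => hg (p i)
    simp only [fx] at q
    have i0' : u * p 0 0 + v * p 0 1 + -w ≠ 0 := fun e => i0 (by linarith)
    intro y
    have z0 := prop u v (-w) (a - 1) b c _ _ _ _ (p 0 0) (p 0 1) (y 0) (y 1) (by linarith)
      (by linarith) (by linarith [(q 1).1]) (by linarith [(q 3).1]) n13
    have z1 := prop u v (-w) d (e - 1) f _ _ _ _ (p 0 0) (p 0 1) (y 0) (y 1) (by linarith)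
      (by linarith) (by linarith [(q 1).2]) (by linarith [(q 3).2]) n13
    rw [show (a - 1) * p 0 0 + b * p 0 1 + c = 0 by linarith [(q 0).1], mul_zero] at z0
    rw [show d * p 0 0 + (e - 1) * p 0 1 + f = 0 by linarith [(q 0).2], mul_zero] at z1
    have y0 := (mul_eq_zero.1 z0).resolve_left i0'
    have y1 := (mul_eq_zero.1 z1).resolve_left i0'
    ext i; fin_cases i
    · have := (hg y).1; simp only [Fin.zero_eta]; linarith
    · have := (hg y).2; simp only [Fin.mk_one]; linarith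
  · exfalso
    let φ : Fin 13 → ℝ := fun i => ∑ k, dist (p i) (p k) ^ 2
    have inv : ∀ i, φ (af m b i) = φ i := by
      intro i
      rw [← hm]
      simp only [φ]
      rw [← (Finite.injective_iff_bijective.1 si).sum_comp (fun k => dist (p (s i)) (p k) ^ 2)]
      simp only [hs, g.dist_eq]
    have inv2 : ∀ (k : ℕ) i, φ ((af m b)^[k] i) = φ i := by
      intro k
      induction k with
      | zero => intro i; rfl
      | succ k ih => intro i; rw [Function.iterate_succ_apply', inv, ih]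
    have a1 := inv2 a.val (j + 1)
    have a2 := inv2 c.val (j + 1)
    rw [ha] at a1
    rw [hc] at a2
    obtain ⟨b1, b2, b3, b4, b5, b6⟩ := t5 j
    rw [← hI] at b1 b2 b3
    obtain ⟨u, v, w, huv, hw⟩ := hl j
    rw [hw] at b1 b2 b3
    simp only [Set.mem_setOf_eq] at b1 b2 b3
    have hφ : ∀ i, φ i = 13 * (p i 0 ^ 2 + p i 1 ^ 2) - 2 * (p i 0 * ∑ k, p k 0 + p i 1 * ∑ k, p k 1) +
        ∑ k, (p k 0 ^ 2 + p k 1 ^ 2) := by
      intro i
      simp only [φ, EuclideanSpace.dist_eq, Fin.sum_univ_two, Real.dist_eq, sq_abs]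
      have : ∀ k, √((p i 0 - p k 0) ^ 2 + (p i 1 - p k 1) ^ 2) ^ 2 =
          (p i 0 ^ 2 + p i 1 ^ 2) - 2 * (p i 0 * p k 0 + p i 1 * p k 1) + (p k 0 ^ 2 + p k 1 ^ 2) := by
        intro k; rw [Real.sq_sqrt (by positivity)]; ring
      simp only [this, Finset.sum_add_distrib, Finset.sum_sub_distrib, ← Finset.mul_sum,
        Finset.sum_const, Finset.card_univ, Fintype.card_fin, nsmul_eq_mul]
      push_cast; ring
    rw [hφ, hφ] at a1 a2
    have n1 := neq _ _ (hp.ne b4.symm)
    have n2 := neq _ _ (hp.ne b5.symm)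
    have n3 := neq _ _ (hp.ne b6)
    generalize ∑ k, p k 0 = X at a1 a2
    generalize ∑ k, p k 1 = Y at a1 a2
    generalize p (j + 1) = A at *
    generalize p (j + 3) = B at *
    generalize p (j + 9) = C at *
    exact conv u v (B 0 - A 0) (B 1 - A 1) (C 0 - A 0) (C 1 - A 1) (2 * X - 26 * A 0)
      (2 * Y - 26 * A 1) huv (by linarith) (by linarith) (n1.imp sub_ne_zero.2 sub_ne_zero.2)
      (n2.imp sub_ne_zero.2 sub_ne_zero.2)
      (n3.imp (fun h e => h (by linarith)) (fun h e => h (by linarith)))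
      (by linear_combination a1) (by linear_combination a2)

end Pool.Agent.Results.MP_f8f7ac_co.NoSymmetry
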